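import Mathlib.Algebra.Polynomial.SumIteratedDerivative
import Mathlib.Analysis.Calculus.Deriv.Polynomial
import Mathlib.Analysis.SpecialFunctions.ExpDeriv
import Mathlib.Analysis.Calculus.MeanValue
import Mathlib.NumberTheory.Bertrand
import Mathlib.RingTheory.Int.Basic

/-!
# A polynomial measure of linear independence of the numbers `exp j`, `j` an integer
-/

noncomputable section

open Finset Polynomial
open scoped Nat

namespace Pool.Agent.Lib.Transc

lemma abs_coeff_prod_le {ι : Type*} (s : Finset ι) (r : ι → ℤ) (R : ℕ) (hr : ∀ i ∈ s, |r i| ≤ R)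
    (k : ℕ) : |(∏ i ∈ s, (X - C (r i))).coeff k| ≤ (1 + (R : ℤ)) ^ s.card := by
  classical
  induction s using Finset.induction_on generalizing k with
  | empty =>
    simp only [prod_empty, card_empty, pow_zero, coeff_one]
    split_ifs <;> simp
  | insert a s ha ih =>
    have ih' := ih (fun i hi => hr i (mem_insert_of_mem hi))
    have hra := hr a (mem_insert_self _ _)
    rw [prod_insert ha, card_insert_of_notMem ha, sub_mul, coeff_sub, coeff_C_mul, pow_succ]
    have h1 : |(X * ∏ i ∈ s, (X - C (r i))).coeff k| ≤ (1 + (R : ℤ)) ^ s.card := by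
      rcases k with _ | k
      · rw [coeff_X_mul_zero, abs_zero]; positivity
      · rw [coeff_X_mul]; exact ih' k
    have h2 : |r a * (∏ i ∈ s, (X - C (r i))).coeff k| ≤ (R : ℤ) * (1 + R) ^ s.card := by
      rw [abs_mul]
      exact mul_le_mul hra (ih' k) (abs_nonneg _) (by positivity)
    calc _ ≤ _ := abs_sub _ _
      _ ≤ (1 + (R : ℤ)) ^ s.card + R * (1 + R) ^ s.card := add_le_add h1 h2
      _ = _ := by ring

lemma abs_eval_zero_sumIDeriv_le (g : ℤ[X]) (n : ℕ) (hn : g.natDegree < n) (M : ℤ)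
    (hM : ∀ k, |g.coeff k| ≤ M) : |(sumIDeriv g).eval 0| ≤ n ! * M := by
  have hM0 : 0 ≤ M := (abs_nonneg _).trans (hM 0)
  obtain ⟨n, rfl⟩ : ∃ m, n = m + 1 := ⟨n - 1, by omega⟩
  rw [sumIDeriv_apply_of_lt hn, eval_finsetSum]
  refine (abs_sum_le_sum_abs _ _).trans ?_
  calc _ ≤ ∑ _i ∈ range (n + 1), (n ! : ℤ) * M := by
        refine Finset.sum_le_sum fun i hi => ?_
        rw [← coeff_zero_eq_eval_zero, coeff_iterate_derivative, zero_add,
          Nat.descFactorial_self, nsmul_eq_mul, abs_mul, Nat.abs_cast]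
        have : (i ! : ℤ) ≤ n ! := by
          exact_mod_cast Nat.factorial_le (Nat.lt_succ_iff.1 (mem_range.1 hi))
        exact mul_le_mul this (hM i) (abs_nonneg _) (by positivity)
    _ = _ := by
        rw [Finset.sum_const, card_range, nsmul_eq_mul, Nat.factorial_succ]
        push_cast
        ring

lemma hermite_identity (g : ℝ[X]) (R M r : ℝ) (hr : |r| ≤ R)
    (hM : ∀ x, |x| ≤ R → |g.eval x| ≤ M) :
    |(sumIDeriv g).eval 0 * Real.exp r - (sumIDeriv g).eval r| ≤ Real.exp (2 * R) * R * M := by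
  have hR : 0 ≤ R := (abs_nonneg _).trans hr
  have hM0 : 0 ≤ M := (abs_nonneg _).trans (hM 0 (by simpa using hR))
  have hd : ∀ x ∈ Set.Icc (-R) R, HasDerivWithinAt
      (fun x => Real.exp (-x) * (sumIDeriv g).eval x) (-(Real.exp (-x) * g.eval x))
      (Set.Icc (-R) R) x := by
    intro x _
    have h1 := (hasDerivAt_id' x).fun_neg.exp
    have h2 := (sumIDeriv g).hasDerivAt x
    refine ((h1.mul h2).congr_deriv ?_).hasDerivWithinAt
    nth_rw 1 [sumIDeriv_eq_self_add g]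
    simp only [eval_add]
    ring
  have hb : ∀ x ∈ Set.Icc (-R) R, ‖-(Real.exp (-x) * g.eval x)‖ ≤ Real.exp R * M := by
    intro x hx
    rw [norm_neg, norm_mul, Real.norm_eq_abs, Real.norm_eq_abs, Real.abs_exp]
    exact mul_le_mul (Real.exp_le_exp.2 (by linarith [hx.1])) (hM x (abs_le.2 hx))
      (abs_nonneg _) (Real.exp_pos _).le
  have h := (convex_Icc (-R) R).norm_image_sub_le_of_norm_hasDerivWithin_le hd hb
    (x := r) (y := 0) (abs_le.1 hr) ⟨by linarith, hR⟩
  simp only [neg_zero, Real.exp_zero, one_mul, zero_sub, norm_neg, Real.norm_eq_abs] at h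
  have e : (sumIDeriv g).eval 0 * Real.exp r - (sumIDeriv g).eval r =
      Real.exp r * ((sumIDeriv g).eval 0 - Real.exp (-r) * (sumIDeriv g).eval r) := by
    rw [mul_sub, ← mul_assoc, ← Real.exp_add]; simp [mul_comm]
  rw [e, abs_mul, Real.abs_exp]
  have h3 : Real.exp r ≤ Real.exp R := Real.exp_le_exp.2 (le_of_abs_le hr)
  calc _ ≤ Real.exp R * (Real.exp R * M * R) := by
        refine mul_le_mul h3 (h.trans ?_) (abs_nonneg _) (Real.exp_pos _).le
        gcongr
    _ = _ := by rw [two_mul, Real.exp_add]; ring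

lemma core (T : Finset ℤ) (R : ℕ) (hR : 1 ≤ R) (hT0 : 0 ∉ T) (hT : ∀ j ∈ T, |j| ≤ R)
    (p : ℕ) (hp : p.Prime) (hpR : R < p) (a0 : ℤ) (ha0 : ¬ (p : ℤ) ∣ a0) (a : ℤ → ℤ) (H : ℝ)
    (hH : ∀ j ∈ T, |(a j : ℝ)| ≤ H) :
    ((p - 1)! : ℝ) ≤ ((T.card + 1) * p)! * (1 + R) ^ (T.card * p) *
        |a0 + ∑ j ∈ T, a j * Real.exp j| +
      T.card * H * (Real.exp (2 * R) * R * (2 * R) ^ T.card) ^ p := by
  classical
  set f : ℤ[X] := ∏ j ∈ T, (X - C j) with hf
  set g : ℤ[X] := X ^ (p - 1) * f ^ p with hg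
  obtain ⟨g0, -, h0⟩ := eval_sumIDeriv_of_pos g hp.pos
  have e0 := h0 0 (p' := f ^ p) (by rw [C_0, sub_zero])
  obtain ⟨g1, -, h1⟩ := aeval_sumIDeriv ℤ g p
  have e1 : ∀ j ∈ T, (sumIDeriv g).eval j = p ! * g1.eval j := by
    intro j hj
    have := h1 j (by
      rw [Algebra.algebraMap_self, Polynomial.map_id, hg]
      exact dvd_mul_of_dvd_right (pow_dvd_pow_of_dvd (dvd_prod_of_mem _ hj) _) _)
    simpa [aeval_def] using this
  set J : ℤ := a0 * f.eval 0 ^ p + p * (a0 * g0.eval 0 + ∑ j ∈ T, a j * g1.eval j) with hJ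
  have hpz : Prime (p : ℤ) := Nat.prime_iff_prime_int.1 hp
  have hJ0 : J ≠ 0 := by
    intro h
    have h2 : (p : ℤ) ∣ a0 * f.eval 0 ^ p := by
      have : a0 * f.eval 0 ^ p = p * (-(a0 * g0.eval 0 + ∑ j ∈ T, a j * g1.eval j)) := by
        linarith
      exact this ▸ dvd_mul_right _ _
    rcases hpz.dvd_or_dvd h2 with h3 | h3
    · exact ha0 h3
    · have h4 := hpz.dvd_of_dvd_pow h3
      rw [hf, eval_prod] at h4
      obtain ⟨j, hj, h5⟩ := (Prime.dvd_finsetProd_iff hpz _).1 h4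
      simp only [eval_sub, eval_X, eval_C, zero_sub, dvd_neg] at h5
      have hj0 : j ≠ 0 := fun h => hT0 (h ▸ hj)
      have := Int.le_of_dvd (abs_pos.2 hj0) ((dvd_abs _ _).2 h5)
      have := hT j hj
      omega
  have hfac : (p ! : ℤ) = p * (p - 1)! := by
    exact_mod_cast (Nat.mul_factorial_pred hp.ne_zero).symm
  have hsum : a0 * (sumIDeriv g).eval 0 + ∑ j ∈ T, a j * (sumIDeriv g).eval j =
      (p - 1)! * J := by
    rw [e0, hJ, Finset.sum_congr rfl (fun j hj => by rw [e1 j hj]), eval_pow]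
    simp only [nsmul_eq_mul, hfac, mul_add, Finset.mul_sum]
    have : ∀ j ∈ T, a j * ((p : ℤ) * (p - 1)! * g1.eval j) =
      (p - 1)! * (p * (a j * g1.eval j)) := fun j _ => by ring
    rw [Finset.sum_congr rfl this]
    ring
  have hG0 : |(sumIDeriv g).eval 0| ≤ ((T.card + 1) * p)! * (1 + (R : ℤ)) ^ (T.card * p) := by
    refine abs_eval_zero_sumIDeriv_le g _ ?_ _ fun k => ?_
    · have d1 : f.natDegree ≤ T.card := by
        refine (natDegree_prod_le _ _).trans ?_
        rw [Finset.sum_congr rfl (fun j _ => natDegree_X_sub_C j)]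
        simp
      have d2 : g.natDegree ≤ (p - 1) + p * T.card := by
        refine natDegree_mul_le.trans (add_le_add (natDegree_X_pow_le _) ?_)
        exact natDegree_pow_le.trans (Nat.mul_le_mul_left _ d1)
      have := hp.pos
      have e : (T.card + 1) * p = p + p * T.card := by ring
      omega
    · rw [hg, coeff_X_pow_mul']
      split_ifs
      · have : f ^ p = ∏ i ∈ T ×ˢ range p, (X - C i.1) := by
          rw [Finset.prod_product, hf, ← Finset.prod_pow]
          simp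
        rw [this]
        have := abs_coeff_prod_le (T ×ˢ range p) (fun i => i.1) R
          (fun i hi => hT _ (mem_product.1 hi).1) (k - (p - 1))
        rwa [card_product, card_range] at this
      · rw [abs_zero]; positivity
  set gr : ℝ[X] := g.map (Int.castRingHom ℝ) with hgr
  have hev : ∀ j : ℤ, (sumIDeriv gr).eval (j : ℝ) = ((sumIDeriv g).eval j : ℤ) := by
    intro j
    rw [hgr, sumIDeriv_map, eval_intCast_map]
    rfl
  have hR1 : (1 : ℝ) ≤ R := by exact_mod_cast hR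
  have herr : ∀ j ∈ T, |(((sumIDeriv g).eval 0 : ℤ) : ℝ) * Real.exp j -
      ((sumIDeriv g).eval j : ℤ)| ≤ (Real.exp (2 * R) * R * (2 * R) ^ T.card) ^ p := by
    intro j hj
    have := hermite_identity gr R (R ^ (p - 1) * ((2 * R) ^ T.card) ^ p) j
      (by exact_mod_cast hT j hj) (by
        intro x hx
        rw [hgr, hg, hf]
        simp only [Polynomial.map_mul, Polynomial.map_pow, map_X, Polynomial.map_prod,
          Polynomial.map_sub, map_C, eval_mul, eval_pow, eval_X, eval_prod, eval_sub, eval_C,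
          abs_mul, abs_pow, Finset.abs_prod]
        gcongr
        rw [← Finset.prod_const]
        refine Finset.prod_le_prod (fun _ _ => abs_nonneg _) fun i hi => ?_
        have : |(i : ℝ)| ≤ R := by exact_mod_cast hT i hi
        calc _ ≤ |x| + |(i : ℝ)| := abs_sub _ _
          _ ≤ _ := by linarith)
    rw [hev j, show (0 : ℝ) = ((0 : ℤ) : ℝ) by simp, hev 0] at this
    refine this.trans ?_
    have h5 : Real.exp (2 * R) ≤ Real.exp (2 * R) ^ p :=
      le_self_pow₀ (Real.one_le_exp (by positivity)) hp.ne_zero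
    have h6 : (R : ℝ) * R ^ (p - 1) = R ^ p := by
      rw [← pow_succ', Nat.sub_add_cancel hp.one_le]
    calc _ = Real.exp (2 * R) * (R * R ^ (p - 1)) * ((2 * R) ^ T.card) ^ p := by ring
      _ ≤ Real.exp (2 * R) ^ p * (R * R ^ (p - 1)) * ((2 * R) ^ T.card) ^ p := by gcongr
      _ = _ := by rw [h6, ← mul_pow, ← mul_pow]
  have hJ1 : (1 : ℝ) ≤ |(J : ℝ)| := by exact_mod_cast Int.one_le_abs hJ0
  have hsum' : (a0 : ℝ) * ((sumIDeriv g).eval 0 : ℤ) +
      ∑ j ∈ T, (a j : ℝ) * ((sumIDeriv g).eval j : ℤ) = (p - 1)! * J := by exact_mod_cast hsum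
  have hid : ((p - 1)! : ℝ) * J = ((sumIDeriv g).eval 0 : ℤ) * (a0 + ∑ j ∈ T, a j * Real.exp j) -
      ∑ j ∈ T, (a j : ℝ) * ((((sumIDeriv g).eval 0 : ℤ) : ℝ) * Real.exp j -
        ((sumIDeriv g).eval j : ℤ)) := by
    rw [← hsum', mul_add, Finset.mul_sum, add_sub_assoc, ← Finset.sum_sub_distrib, mul_comm]
    congr 1
    exact Finset.sum_congr rfl fun j _ => by ring
  have hG0' : |(((sumIDeriv g).eval 0 : ℤ) : ℝ)| ≤
      ((T.card + 1) * p)! * (1 + R) ^ (T.card * p) := by exact_mod_cast hG0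
  calc ((p - 1)! : ℝ) ≤ |((p - 1)! : ℝ) * J| := by
        rw [abs_mul, Nat.abs_cast]
        exact le_mul_of_one_le_right (by positivity) hJ1
    _ ≤ _ := by
        rw [hid]
        refine (abs_sub _ _).trans (add_le_add ?_ ?_)
        · rw [abs_mul]; gcongr
        · refine (abs_sum_le_sum_abs _ _).trans ?_
          rw [mul_assoc, ← nsmul_eq_mul, ← Finset.sum_const]
          refine Finset.sum_le_sum fun j hj => ?_
          rw [abs_mul]
          exact mul_le_mul (hH j hj) (herr j hj) (abs_nonneg _)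
            ((abs_nonneg _).trans (hH j hj))

lemma core' (S : Finset ℤ) (R : ℕ) (hR : 1 ≤ R) (hS : ∀ j ∈ S, 2 * |j| ≤ R)
    (p : ℕ) (hp : p.Prime) (hpR : R < p) (H : ℝ) (n : ℕ) :
    ∀ a : ℤ → ℤ, ∑ j ∈ S, (a j).natAbs = n → (∃ j ∈ S, a j ≠ 0) → (∀ j ∈ S, |(a j : ℝ)| ≤ H) →
    ((p - 1)! : ℝ) ≤ ((S.card + 1) * p)! * (1 + R) ^ (S.card * p) *
        (Real.exp R * |∑ j ∈ S, a j * Real.exp j|) +
      S.card * H * (Real.exp (2 * R) * R * (2 * R) ^ S.card) ^ p := by
  classical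
  induction n using Nat.strong_induction_on with
  | _ n ih =>
    intro a hn hne hH
    have hR1 : (1 : ℝ) ≤ R := by exact_mod_cast hR
    by_cases hall : ∀ j ∈ S, (p : ℤ) ∣ a j
    · obtain ⟨j0, hj0, hj1⟩ := hne
      have hp1 : (1 : ℤ) < p := by exact_mod_cast hp.one_lt
      have hmul : ∀ j ∈ S, a j = p * (a j / p) := fun j hj =>
        (Int.mul_ediv_cancel' (hall j hj)).symm
      have hna : ∀ j ∈ S, (a j).natAbs = p * (a j / p).natAbs := fun j hj => by
        conv_lhs => rw [hmul j hj]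
        rw [Int.natAbs_mul, Int.natAbs_natCast]
      have hj2 : a j0 / p ≠ 0 := fun h => hj1 (by rw [hmul j0 hj0, h, mul_zero])
      have hlt : ∑ j ∈ S, (a j / p).natAbs < n := by
        rw [← hn]
        refine Finset.sum_lt_sum (fun j hj => ?_) ⟨j0, hj0, ?_⟩
        · rw [hna j hj]; exact Nat.le_mul_of_pos_left _ hp.pos
        · rw [hna j0 hj0]
          have := Int.natAbs_pos.2 hj2
          have := hp.one_lt
          nlinarith
      have hp1' : (1 : ℝ) ≤ p := by exact_mod_cast hp.one_le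
      have hmul' : ∀ j ∈ S, (a j : ℝ) = p * ((a j / p : ℤ) : ℝ) := fun j hj => by
        exact_mod_cast hmul j hj
      refine (ih _ hlt (fun j => a j / p) rfl ⟨j0, hj0, hj2⟩ (fun j hj => ?_)).trans ?_
      · refine le_trans ?_ (hH j hj)
        rw [hmul' j hj, abs_mul, Nat.abs_cast]
        exact le_mul_of_one_le_left (abs_nonneg _) hp1'
      · have : ∑ j ∈ S, (a j : ℝ) * Real.exp j =
            p * ∑ j ∈ S, ((a j / p : ℤ) : ℝ) * Real.exp j := by
          rw [Finset.mul_sum]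
          exact Finset.sum_congr rfl fun j hj => by rw [hmul' j hj]; ring
        rw [this, abs_mul, Nat.abs_cast]
        gcongr
        exact le_mul_of_one_le_left (abs_nonneg _) hp1'
    · push Not at hall
      obtain ⟨i, hi, hpi⟩ := hall
      set T := (S.erase i).image (fun j => j - i) with hT
      have hinj : Set.InjOn (fun j => j - i) (S.erase i : Set ℤ) :=
        fun x _ y _ h => by simpa using h
      have hc : T.card ≤ S.card := card_image_le.trans (card_erase_le)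
      have hH0 : 0 ≤ H := (abs_nonneg _).trans (hH i hi)
      have h := core T R hR (by
          intro h
          obtain ⟨j, hj, e⟩ := mem_image.1 h
          exact (mem_erase.1 hj).1 (by linarith))
        (by
          intro t ht
          obtain ⟨j, hj, rfl⟩ := mem_image.1 ht
          have h1 := hS j (mem_erase.1 hj).2
          have h2 := hS i hi
          have := abs_sub j i
          linarith)
        p hp hpR (a i) hpi (fun t => a (t + i)) H (by
          intro t ht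
          obtain ⟨j, hj, rfl⟩ := mem_image.1 ht
          simpa using hH j (mem_erase.1 hj).2)
      have e : (a i : ℝ) + ∑ t ∈ T, a (t + i) * Real.exp t =
          Real.exp (-i) * ∑ j ∈ S, a j * Real.exp j := by
        rw [hT, Finset.sum_image hinj, ← Finset.add_sum_erase S _ hi, mul_add, Finset.mul_sum]
        congr 1
        · rw [mul_left_comm, ← Real.exp_add]; simp
        · refine Finset.sum_congr rfl fun j _ => ?_
          rw [mul_left_comm, ← Real.exp_add]
          simp only [sub_add_cancel, Int.cast_sub]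
          congr 2
          ring
      rw [e, abs_mul, Real.abs_exp] at h
      refine h.trans ?_
      have hi' : -(i : ℝ) ≤ R := by
        have h2 : (2 : ℝ) * |(i : ℝ)| ≤ R := by exact_mod_cast hS i hi
        have := neg_abs_le (i : ℝ)
        have := abs_nonneg (i : ℝ)
        linarith
      gcongr
      · linarith
      · linarith

/-- A measure of linear independence over `ℤ` of the exponentials of distinct integers. -/
theorem exp_measure (S : Finset ℤ) : ∃ c : ℝ, 0 < c ∧ ∃ μ : ℕ, ∀ (a : ℤ → ℤ) (H : ℝ), 1 ≤ H →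
    (∃ j ∈ S, a j ≠ 0) → (∀ j ∈ S, |(a j : ℝ)| ≤ H) →
      c / H ^ μ ≤ |∑ j ∈ S, a j * Real.exp j| := by
  set R : ℕ := 2 * S.sup Int.natAbs + 1 with hRdef
  have hS : ∀ j ∈ S, 2 * |j| ≤ R := by
    intro j hj
    have : j.natAbs ≤ S.sup Int.natAbs := Finset.le_sup hj
    rw [Int.abs_eq_natAbs]
    omega
  set N := S.card with hN
  set C : ℝ := Real.exp (2 * R) * R * (2 * R) ^ N with hC
  have hR1 : (1 : ℝ) ≤ R := by exact_mod_cast (by omega : 1 ≤ R)
  have hC1 : 1 ≤ C := by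
    have h1 : 1 ≤ Real.exp (2 * R) := Real.one_le_exp (by positivity)
    have h2 : (1 : ℝ) ≤ (2 * R) ^ N := one_le_pow₀ (by linarith)
    exact one_le_mul_of_one_le_of_one_le (one_le_mul_of_one_le_of_one_le h1 hR1) h2
  set P0 : ℕ := ⌈2 * N * C ^ 6⌉₊ + 6 * (N + 1) + R + 1 with hP0
  have hP0pos : (0 : ℝ) < P0 := by positivity
  refine ⟨1 / (2 * ((P0 : ℝ) ^ P0) ^ (18 * (N + 1)) * Real.exp R), by positivity,
    3 * (18 * (N + 1)), fun a H hH1 hne hH => ?_⟩
  have hex : ∃ P : ℕ, P0 ≤ P ∧ H ≤ (P : ℝ) ^ P := by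
    refine ⟨P0 + ⌈H⌉₊, by omega, (Nat.le_ceil H).trans ?_⟩
    have h1 : (⌈H⌉₊ : ℝ) ≤ ((P0 + ⌈H⌉₊ : ℕ) : ℝ) := Nat.cast_le.2 (Nat.le_add_left _ _)
    refine h1.trans (le_self_pow₀ ?_ (by omega))
    exact Nat.one_le_cast.2 (by omega)
  have hP0a : ⌈2 * N * C ^ 6⌉₊ ≤ P0 := by omega
  have hP0b : 6 * (N + 1) ≤ P0 := by omega
  have hP0c : R + 1 ≤ P0 := by omega
  have hR0 : 1 ≤ R := by omega
  clear_value P0 R
  classical
  obtain ⟨P, ⟨hP1, hP2⟩, hmin⟩ : ∃ P : ℕ, (P0 ≤ P ∧ H ≤ (P : ℝ) ^ P) ∧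
      ∀ Q < P, ¬ (P0 ≤ Q ∧ H ≤ (Q : ℝ) ^ Q) :=
    ⟨Nat.find hex, Nat.find_spec hex, fun Q hQ => Nat.find_min hex hQ⟩
  have hPpos : 0 < P := by omega
  have hP1r : (1 : ℝ) ≤ P := by exact_mod_cast hPpos
  have hP3 : (P : ℝ) ^ P ≤ (P0 : ℝ) ^ P0 * H ^ 3 := by
    have h0 : (1 : ℝ) ≤ (P0 : ℝ) ^ P0 := one_le_pow₀ (Nat.one_le_cast.2 (by omega))
    have h3 : 1 ≤ H ^ 3 := one_le_pow₀ hH1
    rcases hP1.eq_or_lt with h | h
    · rw [← h]; exact le_mul_of_one_le_right (by positivity) h3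
    · have h4 := hmin (P - 1) (by omega)
      obtain ⟨Q, hQ⟩ : ∃ Q, P = Q + 1 := ⟨P - 1, by omega⟩
      rw [hQ, Nat.add_sub_cancel] at h4
      have h5 : (Q : ℝ) ^ Q < H := by
        by_contra hc
        exact h4 ⟨by omega, not_lt.1 hc⟩
      have h6 : (Q + 1) ^ (Q + 1) ≤ (Q ^ Q) ^ 3 := by
        have hQ3 : 3 ≤ Q := by omega
        calc (Q + 1) ^ (Q + 1) ≤ (Q ^ 2) ^ (Q + 1) := Nat.pow_le_pow_left (by nlinarith) _
          _ = Q ^ (2 * (Q + 1)) := by rw [← pow_mul]
          _ ≤ Q ^ (Q * 3) := Nat.pow_le_pow_right (by omega) (by omega)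
          _ = _ := by rw [pow_mul]
      have h7 : (P : ℝ) ^ P ≤ ((Q : ℝ) ^ Q) ^ 3 := by rw [hQ]; exact_mod_cast h6
      calc _ ≤ ((Q : ℝ) ^ Q) ^ 3 := h7
        _ ≤ H ^ 3 := by gcongr
        _ ≤ _ := le_mul_of_one_le_left (by positivity) h0
  obtain ⟨p, hp, hp1, hp2⟩ := Nat.exists_prime_lt_and_le_two_mul (3 * P) (by omega)
  have h := core' S R (by omega) hS p hp (by omega) H _ a rfl hne hH
  rw [← hN, ← hC] at h
  have hN1 : 1 ≤ N := by
    obtain ⟨j, hj, -⟩ := hne
    exact card_pos.2 ⟨j, hj⟩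
  have hN1' : (1 : ℝ) ≤ N := by exact_mod_cast hN1
  have f1 : (P : ℝ) ^ P * (P : ℝ) ^ P ≤ (p - 1)! := by
    have h1 := Nat.factorial_mul_pow_le_factorial (m := P) (n := 2 * P)
    have h2 : (P + 2 * P)! ≤ (p - 1)! := Nat.factorial_le (by omega)
    have h3 : P ^ P * P ^ P ≤ P ! * (P + 1) ^ (2 * P) := by
      rw [← pow_add, ← two_mul]
      exact (Nat.pow_le_pow_left (Nat.le_succ P) _).trans
        (Nat.le_mul_of_pos_left _ P.factorial_pos)
    exact_mod_cast h3.trans (h1.trans h2)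
  have f2 : 2 * N * C ^ p ≤ (P : ℝ) ^ P := by
    have h1 : 2 * N * C ^ 6 ≤ P := by
      refine (Nat.le_ceil _).trans ?_
      exact_mod_cast (by omega : ⌈2 * N * C ^ 6⌉₊ ≤ P)
    calc 2 * N * C ^ p ≤ (2 * N) ^ P * C ^ (6 * P) := by
          gcongr
          · exact le_self_pow₀ (by linarith) hPpos.ne'
          · omega
      _ = (2 * N * C ^ 6) ^ P := by rw [mul_pow (2 * (N : ℝ)), ← pow_mul]
      _ ≤ _ := by gcongr
  have f3 : (((N + 1) * p)! : ℝ) * (1 + R) ^ (N * p) ≤ ((P : ℝ) ^ P) ^ (18 * (N + 1)) := by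
    have h1 : ((N + 1) * p)! ≤ P ^ (P * (12 * (N + 1))) := by
      calc ((N + 1) * p)! ≤ ((N + 1) * (6 * P))! :=
            Nat.factorial_le (Nat.mul_le_mul_left _ (by omega))
        _ ≤ ((N + 1) * (6 * P)) ^ ((N + 1) * (6 * P)) := Nat.factorial_le_pow _
        _ ≤ (P ^ 2) ^ ((N + 1) * (6 * P)) := by
            refine Nat.pow_le_pow_left ?_ _
            have : 6 * (N + 1) ≤ P := by omega
            nlinarith
        _ = _ := by rw [← pow_mul]; congr 1; ring
    have h2 : (1 + R) ^ (N * p) ≤ P ^ (P * (6 * (N + 1))) := by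
      calc (1 + R) ^ (N * p) ≤ P ^ (N * p) := Nat.pow_le_pow_left (by omega) _
        _ ≤ _ := Nat.pow_le_pow_right hPpos (by nlinarith)
    have h3 : ((N + 1) * p)! * (1 + R) ^ (N * p) ≤ (P ^ P) ^ (18 * (N + 1)) := by
      calc _ ≤ P ^ (P * (12 * (N + 1))) * P ^ (P * (6 * (N + 1))) := Nat.mul_le_mul h1 h2
        _ = _ := by rw [← pow_add, ← pow_mul]; congr 1; ring
    exact_mod_cast h3
  set L := |∑ j ∈ S, (a j : ℝ) * Real.exp j| with hL
  have hL0 : 0 ≤ L := abs_nonneg _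
  have f4 : (N : ℝ) * H * C ^ p ≤ (p - 1)! / 2 := by
    have : 2 * N * C ^ p * H ≤ (P : ℝ) ^ P * (P : ℝ) ^ P := by gcongr
    linarith
  have f5 : (1 : ℝ) ≤ (p - 1)! := by exact_mod_cast Nat.factorial_pos _
  have f6 : (((N + 1) * p)! : ℝ) * (1 + R) ^ (N * p) * (Real.exp R * L) ≤
      ((P0 : ℝ) ^ P0 * H ^ 3) ^ (18 * (N + 1)) * (Real.exp R * L) := by
    gcongr
    exact f3.trans (by gcongr)
  rw [div_div, div_le_iff₀ (by positivity), pow_mul H]
  rw [mul_pow] at f6
  nlinarith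

end Pool.Agent.Lib.Transc
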